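import Mathlib

/-! A set of Hausdorff dimension `n` in `ℝ ^ n` has lower Minkowski dimension `n`:
the volume of its `δ`-neighbourhood is at least `c δ ^ ε` for every `ε > 0`. -/

open MeasureTheory Set Filter Metric
open scoped ENNReal NNReal Topology

namespace Pool.Agent.Helper43.MK

variable {n : ℕ}

/-- the number of points of a separated set in `K` against the volume of the neighbourhood -/
theorem card_sep_le [NeZero n] (K : Set (EuclideanSpace ℝ (Fin n))) {δ : ℝ≥0} (hδ : 0 < δ)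
    (C : Finset (EuclideanSpace ℝ (Fin n))) (hC : (C : Set _) ⊆ K)
    (hs : IsSeparated (δ : ℝ≥0∞) (C : Set (EuclideanSpace ℝ (Fin n)))) :
    (C.card : ℝ≥0∞) * (ENNReal.ofReal (((δ : ℝ) / 2) ^ n)
      * volume (ball (0 : EuclideanSpace ℝ (Fin n)) 1)) ≤ volume (thickening δ K) := by
  have : Nontrivial (EuclideanSpace ℝ (Fin n)) := by
    have : Nonempty (Fin n) := ⟨0⟩
    exact inferInstance
  have hδ' : (0 : ℝ) < δ := hδ
  have h1 : (⋃ x ∈ C, ball x ((δ : ℝ) / 2)) ⊆ thickening δ K := by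
    intro y hy
    simp only [mem_iUnion, exists_prop] at hy
    obtain ⟨x, hx, hy⟩ := hy
    rw [mem_thickening_iff]
    refine ⟨x, hC hx, ?_⟩
    rw [mem_ball] at hy
    linarith
  have h2 : volume (⋃ x ∈ C, ball x ((δ : ℝ) / 2)) = ∑ x ∈ C, volume (ball x ((δ : ℝ) / 2)) := by
    refine measure_biUnion_finset ?_ fun x _ => measurableSet_ball
    intro x hx y hy hxy
    refine ball_disjoint_ball ?_
    have : (δ : ℝ≥0∞) < edist x y := hs hx hy hxy
    rw [edist_dist] at this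
    have h3 : (δ : ℝ) < dist x y := by
      have h4 : ENNReal.ofReal (δ : ℝ) < ENNReal.ofReal (dist x y) := by
        rwa [ENNReal.ofReal_coe_nnreal]
      exact (ENNReal.ofReal_lt_ofReal_iff_of_nonneg (by positivity)).1 h4
    linarith
  have h3 : ∀ x ∈ C, volume (ball x ((δ : ℝ) / 2)) = ENNReal.ofReal (((δ : ℝ) / 2) ^ n)
      * volume (ball (0 : EuclideanSpace ℝ (Fin n)) 1) := by
    intro x _
    rw [Measure.addHaar_ball _ _ (by positivity), finrank_euclideanSpace, Fintype.card_fin]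
  calc _ = ∑ x ∈ C, volume (ball x ((δ : ℝ) / 2)) := by
        rw [Finset.sum_congr rfl h3, Finset.sum_const, nsmul_eq_mul]
    _ = _ := h2.symm
    _ ≤ _ := measure_mono h1

/-- **Hausdorff dimension `n` gives lower Minkowski dimension `n`.** -/
theorem minkowski_of_dimH (hn : 0 < n) (K : Set (EuclideanSpace ℝ (Fin n)))
    (hK : dimH K = n) {ε : ℝ} (hε : 0 < ε) :
    ∃ c : ℝ, 0 < c ∧ ∀ δ : ℝ, 0 < δ → δ < 1 →
      ENNReal.ofReal (c * δ ^ ε) ≤ volume (thickening δ K) := by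
  have : NeZero n := ⟨hn.ne'⟩
  have : Nontrivial (EuclideanSpace ℝ (Fin n)) := by
    have : Nonempty (Fin n) := ⟨0⟩
    exact inferInstance
  by_contra hcon
  push Not at hcon
  -- the ball
  set ω : ℝ≥0∞ := volume (ball (0 : EuclideanSpace ℝ (Fin n)) 1) with hω
  have hω0 : ω ≠ 0 := (measure_ball_pos _ _ one_pos).ne'
  have hωt : ω ≠ ∞ := measure_ball_lt_top.ne
  set w : ℝ := ω.toReal with hw
  have hw0 : 0 < w := ENNReal.toReal_pos hω0 hωt
  have hωw : ω = ENNReal.ofReal w := (ENNReal.ofReal_toReal hωt).symm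
  -- the exponent
  set e : ℝ := min ε (1 / 2) with he
  have he0 : 0 < e := lt_min hε (by norm_num)
  have he1 : e ≤ 1 / 2 := min_le_right _ _
  have heε : e ≤ ε := min_le_left _ _
  have hn1 : (1 : ℝ) ≤ n := by exact_mod_cast hn
  -- bad scales
  have hc : ∀ k : ℕ, ∃ δ : ℝ≥0, 0 < δ ∧ δ < 1 ∧
      volume (thickening (δ : ℝ) K) < ENNReal.ofReal (1 / ((k : ℝ) + 1) * (δ : ℝ) ^ e) := by
    intro k
    obtain ⟨δ, h0, h1, h2⟩ := hcon (1 / ((k : ℝ) + 1)) (by positivity)
    refine ⟨⟨δ, h0.le⟩, h0, h1, h2.trans_le (ENNReal.ofReal_le_ofReal ?_)⟩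
    have : δ ^ ε ≤ δ ^ e := Real.rpow_le_rpow_of_exponent_ge h0 h1.le heε
    have h3 : (0 : ℝ) ≤ 1 / ((k : ℝ) + 1) := by positivity
    exact mul_le_mul_of_nonneg_left this h3
  choose δ hδ0 hδ1 hδv using hc
  have hKne : K.Nonempty := by
    rcases K.eq_empty_or_nonempty with h | h
    · exfalso
      rw [h, dimH_empty] at hK
      have : (n : ℝ≥0∞) ≠ 0 := by exact_mod_cast hn.ne'
      exact this hK.symm
    · exact h
  -- the counting inequality in real form
  have hcount : ∀ k (C : Finset (EuclideanSpace ℝ (Fin n))), (C : Set _) ⊆ K →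
      IsSeparated (δ k : ℝ≥0∞) (C : Set (EuclideanSpace ℝ (Fin n))) →
      (C.card : ℝ) * (((δ k : ℝ) / 2) ^ n * w) ≤ 1 / ((k : ℝ) + 1) * (δ k : ℝ) ^ e := by
    intro k C hC hs
    have h1 := (card_sep_le K (hδ0 k) C hC hs).trans (hδv k).le
    have h2 : (0 : ℝ) < δ k := hδ0 k
    have h3 : (C.card : ℝ≥0∞) * (ENNReal.ofReal (((δ k : ℝ) / 2) ^ n) * ω)
        = ENNReal.ofReal ((C.card : ℝ) * (((δ k : ℝ) / 2) ^ n * w)) := by
      rw [hωw, ENNReal.ofReal_mul (Nat.cast_nonneg _), ENNReal.ofReal_mul (by positivity),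
        ENNReal.ofReal_natCast]
    rw [← hω, h3] at h1
    exact (ENNReal.ofReal_le_ofReal_iff (by positivity)).1 h1
  -- the scales tend to zero
  have hδt : Tendsto (fun k => (δ k : ℝ≥0∞)) atTop (𝓝 0) := by
    have h1 : ∀ k, (δ k : ℝ) ^ n ≤ (2 ^ n / w) * (1 / ((k : ℝ) + 1)) := by
      intro k
      obtain ⟨x, hx⟩ := hKne
      have h2 := hcount k {x} (by simpa using hx) (by rw [Finset.coe_singleton]; exact Set.pairwise_singleton _ _)
      have h3 : (0 : ℝ) < δ k := hδ0 k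
      have h4 : (δ k : ℝ) ^ e ≤ 1 := Real.rpow_le_one h3.le (hδ1 k).le he0.le
      have h5 : (0 : ℝ) ≤ 1 / ((k : ℝ) + 1) := by positivity
      simp only [Finset.card_singleton, Nat.cast_one, one_mul, div_pow] at h2
      have h6 : (δ k : ℝ) ^ n / 2 ^ n * w ≤ 1 / ((k : ℝ) + 1) :=
        h2.trans (by nlinarith [mul_le_mul_of_nonneg_left h4 h5])
      calc (δ k : ℝ) ^ n = (2 ^ n / w) * ((δ k : ℝ) ^ n / 2 ^ n * w) := by
            field_simp
        _ ≤ _ := mul_le_mul_of_nonneg_left h6 (by positivity)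
    have h2 : Tendsto (fun k : ℕ => (2 ^ n / w) * (1 / ((k : ℝ) + 1))) atTop (𝓝 0) := by
      have := tendsto_one_div_add_atTop_nhds_zero_nat (𝕜 := ℝ)
      simpa using this.const_mul (2 ^ n / w)
    have h3 : Tendsto (fun k => (δ k : ℝ) ^ n) atTop (𝓝 0) :=
      squeeze_zero (fun k => by positivity) h1 h2
    have h4 : Tendsto (fun k => ((δ k : ℝ) ^ n) ^ ((n : ℝ)⁻¹)) atTop (𝓝 (0 ^ ((n : ℝ)⁻¹))) :=
      h3.rpow_const (Or.inr (by positivity))
    have h5 : Tendsto (fun k => (δ k : ℝ)) atTop (𝓝 0) := by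
      have h6 : ∀ k, ((δ k : ℝ) ^ n) ^ ((n : ℝ)⁻¹) = δ k := fun k =>
        Real.pow_rpow_inv_natCast (δ k).2 hn.ne'
      simp only [h6] at h4
      rwa [Real.zero_rpow (by positivity)] at h4
    have h6 : Tendsto δ atTop (𝓝 0) := by
      rw [← NNReal.tendsto_coe]
      simpa using h5
    have h7 := ENNReal.tendsto_coe.2 h6
    simpa using h7
  -- the packing numbers are finite
  have hpack : ∀ k, packingNumber (δ k) K ≠ ⊤ := by
    intro k htop
    have h3 : (0 : ℝ) < δ k := hδ0 k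
    obtain ⟨N, hN⟩ := exists_nat_gt
      (1 / ((k : ℝ) + 1) * (δ k : ℝ) ^ e / (((δ k : ℝ) / 2) ^ n * w))
    have h1 : (N : ℕ∞) < packingNumber (δ k) K := by
      rw [htop]; exact ENat.natCast_lt_top N
    rw [packingNumber] at h1
    simp only [lt_iSup_iff] at h1
    obtain ⟨C, hCK, hCs, hCN⟩ := h1
    obtain ⟨C', hC'C, hC'N⟩ := Set.exists_subset_encard_eq hCN.le
    have hfin : C'.Finite := Set.finite_of_encard_eq_coe hC'N
    have h4 := hcount k hfin.toFinset (by simpa using hC'C.trans hCK)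
      (by rw [Set.Finite.coe_toFinset]; exact Set.Pairwise.mono hC'C hCs)
    have h5 : hfin.toFinset.card = N := by
      have : C'.encard = (hfin.toFinset.card : ℕ∞) := hfin.encard_eq_coe_toFinset_card
      rw [hC'N] at this
      exact_mod_cast this.symm
    rw [h5] at h4
    have h6 : (0 : ℝ) < ((δ k : ℝ) / 2) ^ n * w := by positivity
    rw [div_lt_iff₀ h6] at hN
    linarith
  -- covers
  have hfinC : ∀ k, (maximalSeparatedSet (δ k) K).Finite := by
    intro k
    have h1 := encard_maximalSeparatedSet (hpack k)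
    rw [← Set.encard_ne_top_iff, h1]
    exact hpack k
  set C : ℕ → Finset (EuclideanSpace ℝ (Fin n)) := fun k => (hfinC k).toFinset with hCdef
  have hCK : ∀ k, (C k : Set (EuclideanSpace ℝ (Fin n))) ⊆ K := fun k => by
    simpa [hCdef] using maximalSeparatedSet_subset
  have hCs : ∀ k, IsSeparated (δ k : ℝ≥0∞) (C k : Set (EuclideanSpace ℝ (Fin n))) := fun k => by
    simpa [hCdef] using isSeparated_maximalSeparatedSet
  have hcov : ∀ k, K ⊆ ⋃ x : (C k : Set (EuclideanSpace ℝ (Fin n))),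
      Metric.closedEBall (x : EuclideanSpace ℝ (Fin n)) (δ k : ℝ≥0∞) := by
    intro k y hy
    obtain ⟨x, hx, hxy⟩ := isCover_maximalSeparatedSet (hpack k) hy
    rw [mem_iUnion]
    refine ⟨⟨x, by simpa [hCdef] using hx⟩, ?_⟩
    exact hxy
  -- the Hausdorff measure
  have hd0 : (0 : ℝ) < n - e := by linarith
  have hmeas : μH[(n : ℝ) - e] K ≤ ENNReal.ofReal (4 ^ n / w) := by
    have h1 := Measure.hausdorffMeasure_le_liminf_sum ((n : ℝ) - e) K (l := atTop)
      (fun k => 2 * (δ k : ℝ≥0∞)) (by simpa using ENNReal.Tendsto.const_mul hδt (Or.inr (by simp)))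
      (fun k (x : (C k : Set (EuclideanSpace ℝ (Fin n)))) =>
        Metric.closedEBall (x : EuclideanSpace ℝ (Fin n)) (δ k : ℝ≥0∞))
      (Eventually.of_forall fun k x => Metric.ediam_closedEBall_le)
      (Eventually.of_forall hcov)
    refine h1.trans ?_
    refine (liminf_le_liminf (v := fun _ => ENNReal.ofReal (4 ^ n / w))
      (Eventually.of_forall fun k => ?_)).trans (by simp)
    have h3 : (0 : ℝ) < δ k := hδ0 k
    have h2 : ∀ x : (C k : Set (EuclideanSpace ℝ (Fin n))),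
        ediam (Metric.closedEBall (x : EuclideanSpace ℝ (Fin n)) (δ k : ℝ≥0∞)) ^ ((n : ℝ) - e)
          ≤ ENNReal.ofReal ((2 * (δ k : ℝ)) ^ ((n : ℝ) - e)) := by
      intro x
      rw [← ENNReal.ofReal_rpow_of_pos (by positivity)]
      refine ENNReal.rpow_le_rpow ?_ hd0.le
      refine Metric.ediam_closedEBall_le.trans ?_
      rw [ENNReal.ofReal_mul (by norm_num)]
      simp
    refine (Finset.sum_le_sum fun x _ => h2 x).trans ?_
    rw [Finset.sum_const, nsmul_eq_mul]
    have h5 : (Finset.univ : Finset (C k : Set (EuclideanSpace ℝ (Fin n)))).card = (C k).card := by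
      simp
    rw [h5, ← ENNReal.ofReal_natCast, ← ENNReal.ofReal_mul (Nat.cast_nonneg _)]
    refine ENNReal.ofReal_le_ofReal ?_
    have h6 := hcount k (C k) (hCK k) (hCs k)
    have h7 : (1 : ℝ) / ((k : ℝ) + 1) ≤ 1 := by
      rw [div_le_one (by positivity)]
      have : (0 : ℝ) ≤ k := by positivity
      linarith
    have h8 : ((C k).card : ℝ) * (((δ k : ℝ) / 2) ^ n * w) ≤ (δ k : ℝ) ^ e :=
      h6.trans (by nlinarith [Real.rpow_pos_of_pos h3 e])
    have h9 : ((C k).card : ℝ) ≤ (δ k : ℝ) ^ e * (2 ^ n / (w * (δ k : ℝ) ^ n)) := by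
      have h10 : (0 : ℝ) < ((δ k : ℝ) / 2) ^ n * w := by positivity
      rw [← le_div_iff₀ h10] at h8
      refine h8.trans (le_of_eq ?_)
      rw [div_pow]
      field_simp
    have h10 : (2 * (δ k : ℝ)) ^ ((n : ℝ) - e) ≤ 2 ^ n * ((δ k : ℝ) ^ n / (δ k : ℝ) ^ e) := by
      rw [Real.mul_rpow (by norm_num) h3.le, Real.rpow_sub h3, Real.rpow_natCast]
      refine mul_le_mul_of_nonneg_right ?_ (by positivity)
      rw [← Real.rpow_natCast]
      exact Real.rpow_le_rpow_of_exponent_le (by norm_num) (by linarith)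
    calc ((C k).card : ℝ) * (2 * (δ k : ℝ)) ^ ((n : ℝ) - e)
        ≤ ((δ k : ℝ) ^ e * (2 ^ n / (w * (δ k : ℝ) ^ n)))
          * (2 ^ n * ((δ k : ℝ) ^ n / (δ k : ℝ) ^ e)) :=
          mul_le_mul h9 h10 (by positivity) (by positivity)
      _ = 4 ^ n / w := by
          have : (δ k : ℝ) ^ e ≠ 0 := (Real.rpow_pos_of_pos h3 e).ne'
          have h11 : (4 : ℝ) ^ n = 2 ^ n * 2 ^ n := by rw [← mul_pow]; norm_num
          rw [h11]
          field_simp
  -- conclusion
  have hdim : dimH K ≤ ((n : ℝ) - e).toNNReal := by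
    refine dimH_le_of_hausdorffMeasure_ne_top ?_
    rw [Real.coe_toNNReal _ hd0.le]
    exact (hmeas.trans_lt ENNReal.ofReal_lt_top).ne
  rw [hK] at hdim
  have h1 : (n : ℝ≥0) ≤ ((n : ℝ) - e).toNNReal := by exact_mod_cast hdim
  have h2 : (n : ℝ) ≤ (n : ℝ) - e := by
    have := (NNReal.coe_le_coe.2 h1)
    rw [Real.coe_toNNReal _ hd0.le] at this
    simpa using this
  linarith

end Pool.Agent.Helper43.MK
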