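import Pool.Agent.Helper43.MK.Minkowski
import Pool.Agent.Helper89.LS.MainE

/-! Skeleton of the final statements: from the exact form of the calculus in dimension `n - 1` to
the Hausdorff and the lower Minkowski dimension of Kakeya sets of `ℝ ^ n`. -/

open MeasureTheory Metric
open scoped ENNReal

namespace Pool.Agent.Helper43.MK

theorem hausdorff_of_ek (n : ℕ) (hn : 2 ≤ n) (hE : Helper89.LS.EK (n - 1))
    (K : Set (EuclideanSpace ℝ (Fin n)))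
    (hK : ∀ e : EuclideanSpace ℝ (Fin n), ‖e‖ = 1 → ∃ p, ∀ t : ℝ, 0 ≤ t → t ≤ 1 → p + t • e ∈ K) :
    dimH K = n :=
  Helper89.LS.kakeya_of_ek n hn hE K hK

theorem minkowski_of_ek (n : ℕ) (hn : 2 ≤ n) (hE : Helper89.LS.EK (n - 1))
    (K : Set (EuclideanSpace ℝ (Fin n)))
    (hK : ∀ e : EuclideanSpace ℝ (Fin n), ‖e‖ = 1 → ∃ p, ∀ t : ℝ, 0 ≤ t → t ≤ 1 → p + t • e ∈ K) :
    ∀ ε : ℝ, 0 < ε → ∃ c : ℝ, 0 < c ∧ ∀ δ : ℝ, 0 < δ → δ < 1 →
      ENNReal.ofReal (c * δ ^ ε) ≤ volume (thickening δ K) :=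
  fun _ hε => minkowski_of_dimH (by omega) K (hausdorff_of_ek n hn hE K hK) hε

end Pool.Agent.Helper43.MK
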